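import Mathlib
import Pool.Agent.W5h37.Stick.Count

/-!
# Sticks in the plane with infinite second moment and positive critical intensity

The continuum version (Q2).  At each point of a Poisson process of intensity `t` in the plane starts a
segment of random length `L` and uniform direction, all independent.  If `r ↦ r · E [L; L ≥ r]` is
bounded for `r ≥ 1` then `λ_c > 0`.  This holds for the law `P (L ≥ r) = 1 / r ^ 2`, `r ≥ 1`, for which
`E L ^ 2 = ∞`.
-/

set_option autoImplicit false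
open MeasureTheory ProbabilityTheory
open scoped ENNReal NNReal BigOperators

namespace Pool.Agent.Results.MP_04d7a1_pr.SticksNoPercolation

/-! ### Definitions used in the statement -/

/-- The mark of a stick: `(u, L, θ)`, where `u` is the position of its starting point in its unit
square, `L` its length and `θ` its angle. -/
abbrev Mark : Type := (ℝ × ℝ) × ℝ × ℝ

/-- The law of a mark: `u` is uniform in `[0, 1) × [0, 1)`, `L` has the law `m`, `θ` is uniform in
`[0, 2 π)`, and these are independent. (`cond volume s` is the uniform law on `s`.) -/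
noncomputable def markLaw (m : Measure ℝ) : Measure Mark :=
  (cond volume (Set.Ico (0 : ℝ) 1 ×ˢ Set.Ico (0 : ℝ) 1)).prod
    (m.prod (cond volume (Set.Ico (0 : ℝ) (2 * Real.pi))))

/-- The sample space. For `ω = (N, h)` the number of points of the Poisson process in the unit square
`x + [0, 1) × [0, 1)` is `N x`, and `h (x, i)` is the mark of the `i`-th of them, `i < N x`. -/
abbrev Sample : Type := (ℤ × ℤ → ℕ) × ((ℤ × ℤ) × ℕ → Mark)

theorem isProbabilityMeasure_markLaw (m : Measure ℝ) [IsProbabilityMeasure m] :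
    IsProbabilityMeasure (markLaw m) := by
  unfold markLaw
  have h1 : IsProbabilityMeasure
      (cond volume (Set.Ico (0 : ℝ) 1 ×ˢ Set.Ico (0 : ℝ) 1) : Measure (ℝ × ℝ)) := by
    refine cond_isProbabilityMeasure_of_finite ?_ ?_
    · rw [Measure.volume_eq_prod, Measure.prod_prod]
      simp
    · rw [Measure.volume_eq_prod, Measure.prod_prod]
      simp
  have h2 : IsProbabilityMeasure (cond volume (Set.Ico (0 : ℝ) (2 * Real.pi)) : Measure ℝ) := by
    refine cond_isProbabilityMeasure_of_finite ?_ ?_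
    · simp [Real.pi_pos]
    · rw [Real.volume_Ico]
      exact ENNReal.ofReal_ne_top
  infer_instance

instance (m : Measure ℝ) [IsProbabilityMeasure m] : IsProbabilityMeasure (markLaw m) :=
  isProbabilityMeasure_markLaw m

/-- The law of the model: the Poisson process of intensity `t` in the plane (independent Poisson
numbers of mean `t` of independent uniform points in the unit squares), with independent lengths of
law `m` and independent uniform angles. -/
noncomputable def stickLaw (t : ℝ≥0) (m : Measure ℝ) [IsProbabilityMeasure m] : Measure Sample :=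
  (Measure.infinitePi (fun _ : ℤ × ℤ => (poissonPMF t).toMeasure)).prod
    (Measure.infinitePi (fun _ : (ℤ × ℤ) × ℕ => markLaw m))

/-- The starting point of the stick with mark `a` in the unit square of `x`. -/
def start (x : ℤ × ℤ) (a : Mark) : ℝ × ℝ := ((x.1 : ℝ) + a.1.1, (x.2 : ℝ) + a.1.2)

/-- The stick with mark `a = (u, L, θ)` in the unit square of `x`: the segment from its starting point
`p` to `p + L (cos θ, sin θ)`. -/
def stick (x : ℤ × ℤ) (a : Mark) : Set (ℝ × ℝ) :=
  segment ℝ (start x a) (start x a + a.2.1 • (Real.cos a.2.2, Real.sin a.2.2))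

/-- The union of all sticks. -/
def occupied (ω : Sample) : Set (ℝ × ℝ) :=
  {p | ∃ x : ℤ × ℤ, ∃ i : ℕ, i < ω.1 x ∧ p ∈ stick x (ω.2 (x, i))}

/-- The union of the sticks has an infinite cluster: a connected component which is unbounded, or
which contains infinitely many sticks. -/
def Percolates (ω : Sample) : Prop :=
  ∃ p ∈ occupied ω, ¬ Bornology.IsBounded (connectedComponentIn (occupied ω) p) ∨
    {j : (ℤ × ℤ) × ℕ | j.2 < ω.1 j.1 ∧
      stick j.1 (ω.2 j) ⊆ connectedComponentIn (occupied ω) p}.Infinite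

/-- The critical intensity `inf {t > 0 : P (there is an infinite cluster) > 0}`, in `[0, ∞]`. -/
noncomputable def critical (m : Measure ℝ) [IsProbabilityMeasure m] : ℝ≥0∞ :=
  ⨅ t : {t : ℝ≥0 // 0 < t ∧ 0 < stickLaw t m {ω | Percolates ω}}, ((t : ℝ≥0) : ℝ≥0∞)

/-! ### Proof -/

open Pool.Agent.H592 Pool.Agent.R958.Animal
open Pool.Agent.W5h37.Stick (cell pos shp nst Good Fat)

noncomputable section

def phi (p : ℤ × ℤ) : V 2 := ![p.1, p.2]

/-- the identification of the two lattices -/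
def phiE : (ℤ × ℤ) ≃ V 2 where
  toFun := phi
  invFun := fun y => (y 0, y 1)
  left_inv _ := rfl
  right_inv y := by funext j; fin_cases j <;> rfl

/-- the configuration of the covering animals -/
def coarse (ω : Sample) : (ℤ × ℤ → ℕ) × ((ℤ × ℤ) × ℕ → Finset (V 2)) :=
  (ω.1, fun j => shp (ω.2 j))

/-- the cells covered by the animals -/
def cells (ω : Sample) : Set (V 2) := occ (Qs (xiM phiE (fun A : Finset (V 2) => A)) (coarse ω))

theorem cell_shift (x : ℤ × ℤ) (p : ℝ × ℝ) (j : Fin 2) :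
    cell ((x.1 : ℝ) + p.1, (x.2 : ℝ) + p.2) j = phi x j + cell p j := by
  fin_cases j
  · show ⌊(x.1 : ℝ) + p.1⌋ = x.1 + ⌊p.1⌋
    exact Int.floor_intCast_add _ _
  · show ⌊(x.2 : ℝ) + p.2⌋ = x.2 + ⌊p.2⌋
    exact Int.floor_intCast_add _ _

theorem mem_stick (x : ℤ × ℤ) (a : Mark) (ha : Good a) (p : ℝ × ℝ) (hp : p ∈ stick x a) :
    ∃ t : ℝ, 0 ≤ t ∧ t ≤ a.2.1 ∧ p = ((x.1 : ℝ) + (pos a t).1, (x.2 : ℝ) + (pos a t).2) := by
  unfold stick at hp
  rw [segment_eq_image'] at hp
  obtain ⟨θ, ⟨h0, h1⟩, rfl⟩ := hp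
  refine ⟨θ * a.2.1, mul_nonneg h0 ha.2.le, mul_le_of_le_one_left ha.2.le h1, ?_⟩
  unfold start pos
  ext
  · simp only [add_sub_cancel_left, Prod.fst_add, Prod.smul_fst, smul_eq_mul]
    ring
  · simp only [add_sub_cancel_left, Prod.snd_add, Prod.smul_snd, smul_eq_mul]
    ring

theorem fat (ω : Sample) (hω : ∀ j, Good (ω.2 j)) : Fat (occupied ω) (cells ω) := by
  rintro p ⟨x, i, hi, hp⟩ z hz
  obtain ⟨t, h0, h1, rfl⟩ := mem_stick x _ (hω (x, i)) p hp
  refine ⟨(phi x, shp (ω.2 (x, i))), ?_, ?_⟩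
  · show xiM phiE _ _ (coarse ω) = true
    rw [xiM_true_iff]
    exact ⟨i, hi, rfl⟩
  · show z - phi x ∈ shp _
    refine Pool.Agent.W5h37.Stick.cover _ t h0 h1 _ fun j => ?_
    have h2 := hz j
    rw [cell_shift] at h2
    have e : (z - phi x) j - cell (pos (ω.2 (x, i)) t) j =
        z j - (phi x j + cell (pos (ω.2 (x, i)) t) j) := by
      simp only [Pi.sub_apply]
      ring
    rw [e]
    exact h2

theorem cell_start (x : ℤ × ℤ) (a : Mark) (ha : Good a) : cell (start x a) = phi x := by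
  funext j
  unfold start
  rw [cell_shift]
  obtain ⟨⟨h1, h2⟩, _⟩ := ha
  have e1 : ⌊a.1.1⌋ = 0 := Int.floor_eq_zero_iff.2 h1
  have e2 : ⌊a.1.2⌋ = 0 := Int.floor_eq_zero_iff.2 h2
  fin_cases j <;> simp [cell, e1, e2]

theorem perc_of_percolates (ω : Sample) (hω : ∀ j, Good (ω.2 j)) (h : Percolates ω) :
    perc (cells ω) := by
  obtain ⟨p, _, h | h⟩ := h
  · exact Pool.Agent.W5h37.Stick.perc_of_unbounded (fat ω hω) (connectedComponentIn_subset _ _)
      isPreconnected_connectedComponentIn h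
  · refine Pool.Agent.W5h37.Stick.perc_of_cells (fat ω hω) (connectedComponentIn_subset _ _)
      (isPreconnected_connectedComponentIn (F := occupied ω) (x := p)) ?_
    by_contra hfin
    rw [Set.not_infinite] at hfin
    apply h
    have h1 : {j : (ℤ × ℤ) × ℕ | j.2 < ω.1 j.1 ∧
        stick j.1 (ω.2 j) ⊆ connectedComponentIn (occupied ω) p} ⊆
        ⋃ z ∈ cell '' connectedComponentIn (occupied ω) p,
          (fun i : ℕ => (phiE.symm z, i)) '' Set.Iio (ω.1 (phiE.symm z)) := by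
      rintro ⟨x, i⟩ ⟨hi, hj⟩
      rw [Set.mem_iUnion₂]
      refine ⟨phi x, ⟨start x (ω.2 (x, i)), hj (left_mem_segment ℝ _ _), ?_⟩, ?_⟩
      · exact cell_start x _ (hω _)
      · have e : phiE.symm (phi x) = x := phiE.symm_apply_apply x
        rw [e]
        exact ⟨i, hi, rfl⟩
    exact (hfin.biUnion fun z _ => (Set.finite_Iio _).image _).subset h1

theorem ae_good (m : Measure ℝ) [IsProbabilityMeasure m] (h0 : m (Set.Iic 0) = 0) :
    ∀ᵐ a ∂(markLaw m), Good a := by
  have h1 : ∀ᵐ u ∂(cond volume (Set.Ico (0 : ℝ) 1 ×ˢ Set.Ico (0 : ℝ) 1) : Measure (ℝ × ℝ)),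
      u ∈ Set.Ico (0 : ℝ) 1 ×ˢ Set.Ico (0 : ℝ) 1 :=
    ae_cond_mem (measurableSet_Ico.prod measurableSet_Ico)
  have h2 : ∀ᵐ l ∂m, 0 < l := by
    rw [ae_iff]
    have : {l : ℝ | ¬ 0 < l} = Set.Iic 0 := by ext; simp
    rw [this, h0]
  have h3 : ∀ᵐ q ∂(m.prod (cond volume (Set.Ico (0 : ℝ) (2 * Real.pi)) : Measure ℝ)), 0 < q.1 :=
    Measure.quasiMeasurePreserving_fst.ae h2
  unfold markLaw
  have h4 := (Measure.quasiMeasurePreserving_fst
    (μ := (cond volume (Set.Ico (0 : ℝ) 1 ×ˢ Set.Ico (0 : ℝ) 1) : Measure (ℝ × ℝ)))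
    (ν := m.prod (cond volume (Set.Ico (0 : ℝ) (2 * Real.pi)) : Measure ℝ))).ae h1
  have h5 := (Measure.quasiMeasurePreserving_snd
    (μ := (cond volume (Set.Ico (0 : ℝ) 1 ×ˢ Set.Ico (0 : ℝ) 1) : Measure (ℝ × ℝ)))
    (ν := m.prod (cond volume (Set.Ico (0 : ℝ) (2 * Real.pi)) : Measure ℝ))).ae h3
  filter_upwards [h4, h5] with a h6 h7
  exact ⟨h6, h7⟩

theorem ae_all_good (t : ℝ≥0) (m : Measure ℝ) [IsProbabilityMeasure m] (h0 : m (Set.Iic 0) = 0) :
    ∀ᵐ ω ∂(stickLaw t m), ∀ j, Good (ω.2 j) := by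
  have h1 : ∀ᵐ h ∂(Measure.infinitePi (fun _ : (ℤ × ℤ) × ℕ => markLaw m)), ∀ j, Good (h j) := by
    rw [ae_all_iff]
    intro j
    exact (measurePreserving_eval_infinitePi (fun _ : (ℤ × ℤ) × ℕ => markLaw m)
      j).quasiMeasurePreserving.ae (ae_good m h0)
  unfold stickLaw
  exact (Measure.quasiMeasurePreserving_snd
    (μ := Measure.infinitePi (fun _ : ℤ × ℤ => (poissonPMF t).toMeasure))
    (ν := Measure.infinitePi (fun _ : (ℤ × ℤ) × ℕ => markLaw m))).ae h1

/-- the law of the covering animal -/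
def animalLaw (m : Measure ℝ) : Measure (Finset (V 2)) := (markLaw m).map shp

instance (m : Measure ℝ) [IsProbabilityMeasure m] : IsProbabilityMeasure (animalLaw m) :=
  Measure.isProbabilityMeasure_map Pool.Agent.W5h37.Stick.measurable_shp.aemeasurable

theorem measurable_coarse : Measurable coarse := by
  unfold coarse
  refine measurable_fst.prodMk ?_
  rw [measurable_pi_iff]
  intro j
  exact Pool.Agent.W5h37.Stick.measurable_shp.comp ((measurable_pi_apply j).comp measurable_snd)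

theorem map_coarse (t : ℝ≥0) (m : Measure ℝ) [IsProbabilityMeasure m] :
    (stickLaw t m).map coarse = markedLaw (ℤ × ℤ) t (animalLaw m) := by
  have h1 : coarse = Prod.map (fun N : ℤ × ℤ → ℕ => N)
      (fun (h : (ℤ × ℤ) × ℕ → Mark) j => shp (h j)) := rfl
  have h2 := Measure.infinitePi_map_pi (μ := fun _ : (ℤ × ℤ) × ℕ => markLaw m)
    (f := fun _ => shp) (fun _ => Pool.Agent.W5h37.Stick.measurable_shp)
  unfold stickLaw markedLaw
  rw [h1, ← Measure.map_prod_map]
  · rw [Measure.map_id']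
    congr 1
  · exact measurable_id
  · rw [measurable_pi_iff]
    intro j
    exact Pool.Agent.W5h37.Stick.measurable_shp.comp (measurable_pi_apply j)

/-- the weight of a key -/
def wt (m : Measure ℝ) (k : V 2 × Finset (V 2)) : ℝ≥0∞ :=
  animalLaw m ((fun A : Finset (V 2) => A) ⁻¹' {k.2})

theorem sum_wt (m : Measure ℝ) [IsProbabilityMeasure m] (G : V 2 × Finset (V 2) → ℝ≥0∞) :
    ∑' k, wt m k * G k = ∫⁻ a, ∑' x, G (x, shp a) ∂(markLaw m) := by
  unfold wt
  rw [sum_keys (fun A : Finset (V 2) => A) (animalLaw m) G]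
  have h1 : ∑' A : Finset (V 2), animalLaw m {A} * ∑' x, G (x, A) =
      ∫⁻ A, ∑' x, G (x, A) ∂(animalLaw m) := by
    rw [lintegral_countable']
    exact tsum_congr fun A => mul_comm _ _
  rw [h1]
  unfold animalLaw
  rw [lintegral_map (measurable_of_countable _) Pool.Agent.W5h37.Stick.measurable_shp]

/-- the law of the length is `m` -/
theorem lintegral_length (m : Measure ℝ) [IsProbabilityMeasure m] (f : ℝ → ℝ≥0∞)
    (hf : Measurable f) : ∫⁻ a, f a.2.1 ∂(markLaw m) = ∫⁻ l, f l ∂m := by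
  have h1 : IsProbabilityMeasure
      (cond volume (Set.Ico (0 : ℝ) 1 ×ˢ Set.Ico (0 : ℝ) 1) : Measure (ℝ × ℝ)) := by
    refine cond_isProbabilityMeasure_of_finite ?_ ?_
    · rw [Measure.volume_eq_prod, Measure.prod_prod]
      simp
    · rw [Measure.volume_eq_prod, Measure.prod_prod]
      simp
  have h2 : IsProbabilityMeasure (cond volume (Set.Ico (0 : ℝ) (2 * Real.pi)) : Measure ℝ) := by
    refine cond_isProbabilityMeasure_of_finite ?_ ?_
    · simp [Real.pi_pos]
    · rw [Real.volume_Ico]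
      exact ENNReal.ofReal_ne_top
  unfold markLaw
  rw [lintegral_prod _ (by fun_prop)]
  simp only [lintegral_const, measure_univ, mul_one]
  rw [lintegral_prod _ (by fun_prop)]
  simp

/-- the bound for the tails used below -/
theorem tail_bound (m : Measure ℝ) [IsProbabilityMeasure m] (C : ℝ≥0∞)
    (h : ∀ r : ℝ, 1 ≤ r →
      ENNReal.ofReal r * ∫⁻ l in Set.Ici r, ENNReal.ofReal l ∂m ≤ C) (r : ℕ) (hr : 1 ≤ r) :
    (r : ℝ≥0∞) * ∫⁻ l, (if (r : ℝ) ≤ l + 5 then ENNReal.ofReal (l + 5) else 0) ∂m ≤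
      4 * C + 10 * (6 + C) := by
  have hr0 : (1 : ℝ) ≤ r := by exact_mod_cast hr
  by_cases h10 : 10 ≤ r
  · have h10' : (10 : ℝ) ≤ r := by exact_mod_cast h10
    refine le_trans ?_ le_self_add
    have h1 := h (r / 2) (by linarith)
    have h2 : ∫⁻ l, (if (r : ℝ) ≤ l + 5 then ENNReal.ofReal (l + 5) else 0) ∂m ≤
        2 * ∫⁻ l in Set.Ici ((r : ℝ) / 2), ENNReal.ofReal l ∂m := by
      rw [← lintegral_const_mul _ (by fun_prop), ← lintegral_indicator measurableSet_Ici]
      refine lintegral_mono fun l => ?_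
      by_cases hl : (r : ℝ) ≤ l + 5
      · have hl2 : (r : ℝ) / 2 ≤ l := by linarith
        rw [if_pos hl, Set.indicator_of_mem (Set.mem_Ici.2 hl2)]
        rw [show (2 : ℝ≥0∞) = ENNReal.ofReal 2 by simp, ← ENNReal.ofReal_mul (by norm_num)]
        exact ENNReal.ofReal_le_ofReal (by linarith)
      · rw [if_neg hl]
        exact zero_le
    calc (r : ℝ≥0∞) * ∫⁻ l, (if (r : ℝ) ≤ l + 5 then ENNReal.ofReal (l + 5) else 0) ∂m
        ≤ (r : ℝ≥0∞) * (2 * ∫⁻ l in Set.Ici ((r : ℝ) / 2), ENNReal.ofReal l ∂m) := by gcongr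
      _ = 4 * (ENNReal.ofReal ((r : ℝ) / 2) *
            ∫⁻ l in Set.Ici ((r : ℝ) / 2), ENNReal.ofReal l ∂m) := by
          have e : (r : ℝ≥0∞) = 2 * ENNReal.ofReal ((r : ℝ) / 2) := by
            rw [show (2 : ℝ≥0∞) = ENNReal.ofReal 2 by simp, ← ENNReal.ofReal_mul (by norm_num),
              mul_div_cancel₀ _ (by norm_num), ENNReal.ofReal_natCast]
          rw [e]
          ring
      _ ≤ 4 * C := by gcongr
  · have h9 : (r : ℝ≥0∞) ≤ 10 := by
      have : r ≤ 10 := by omega
      exact_mod_cast this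
    refine le_trans ?_ le_add_self
    have h1 := h 1 le_rfl
    rw [ENNReal.ofReal_one, one_mul] at h1
    have h2 : ∫⁻ l, (if (r : ℝ) ≤ l + 5 then ENNReal.ofReal (l + 5) else 0) ∂m ≤ 6 + C := by
      calc ∫⁻ l, (if (r : ℝ) ≤ l + 5 then ENNReal.ofReal (l + 5) else 0) ∂m
          ≤ ∫⁻ l, (6 + (Set.Ici (1 : ℝ)).indicator (fun l => ENNReal.ofReal l) l) ∂m := by
            refine lintegral_mono fun l => ?_
            have h3 : (if (r : ℝ) ≤ l + 5 then ENNReal.ofReal (l + 5) else 0) ≤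
                ENNReal.ofReal (l + 5) := by
              split_ifs
              · exact le_rfl
              · exact zero_le
            refine h3.trans ?_
            by_cases hl : 1 ≤ l
            · rw [Set.indicator_of_mem (Set.mem_Ici.2 hl)]
              rw [show (6 : ℝ≥0∞) = ENNReal.ofReal 6 by simp, ← ENNReal.ofReal_add (by norm_num)
                (by linarith)]
              exact ENNReal.ofReal_le_ofReal (by linarith)
            · refine le_trans ?_ le_self_add
              rw [show (6 : ℝ≥0∞) = ENNReal.ofReal 6 by simp]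
              exact ENNReal.ofReal_le_ofReal (by linarith)
        _ = 6 + ∫⁻ l in Set.Ici (1 : ℝ), ENNReal.ofReal l ∂m := by
            rw [lintegral_add_left measurable_const, lintegral_const, measure_univ, mul_one,
              lintegral_indicator measurableSet_Ici]
        _ ≤ 6 + C := by gcongr
    calc (r : ℝ≥0∞) * ∫⁻ l, (if (r : ℝ) ≤ l + 5 then ENNReal.ofReal (l + 5) else 0) ∂m
        ≤ 10 * (6 + C) := by gcongr

/-- the mean number of bad sticks -/
theorem sum_bad (m : Measure ℝ) [IsProbabilityMeasure m] (h0 : m (Set.Iic 0) = 0) (C : ℝ≥0∞)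
    (h : ∀ r : ℝ, 1 ≤ r →
      ENNReal.ofReal r * ∫⁻ l in Set.Ici r, ENNReal.ofReal l ∂m ≤ C)
    (c : V 2) (r : ℕ) (hr : 1 ≤ r) :
    ∑' k, wt m k * one? (bad c r k) ≤ 20402 * (4 * C + 10 * (6 + C)) := by
  rw [sum_wt m fun k => one? (bad c r k)]
  obtain ⟨g, hg⟩ : ∃ g : ℝ → ℝ≥0∞, g = fun l : ℝ =>
      (if (r : ℝ) ≤ l + 5 then ENNReal.ofReal (l + 5) else (0 : ℝ≥0∞)) := ⟨_, rfl⟩
  have hmeas : Measurable g := by
    rw [hg]
    refine Measurable.ite ?_ (by fun_prop) measurable_const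
    exact measurableSet_le measurable_const (by fun_prop)
  have htail : (r : ℝ≥0∞) * ∫⁻ l, g l ∂m ≤ 4 * C + 10 * (6 + C) := by
    rw [hg]
    exact tail_bound m C h r hr
  calc ∫⁻ a, ∑' x, one? (bad c r (x, shp a)) ∂(markLaw m)
      ≤ ∫⁻ a, 20402 * ((r : ℝ≥0∞) * g a.2.1) ∂(markLaw m) := by
        refine lintegral_mono_ae ?_
        filter_upwards [ae_good m h0] with a ha
        refine (Pool.Agent.W5h37.Stick.bad_count a ha c r hr).trans ?_
        have h1 : ((nst a + 4 : ℕ) : ℝ) ≤ a.2.1 + 5 := by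
          unfold nst
          push_cast
          have := Nat.floor_le ha.2.le
          linarith
        by_cases hra : r ≤ nst a + 4
        · rw [if_pos hra]
          have h2 : (r : ℝ) ≤ a.2.1 + 5 := le_trans (by exact_mod_cast hra) h1
          have h4 : g a.2.1 = ENNReal.ofReal (a.2.1 + 5) := by
            rw [hg]
            exact if_pos h2
          rw [h4]
          have h3 : ((nst a + 4 : ℕ) : ℝ≥0∞) ≤ ENNReal.ofReal (a.2.1 + 5) := by
            rw [← ENNReal.ofReal_natCast]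
            exact ENNReal.ofReal_le_ofReal h1
          calc ((20402 * (r * (nst a + 4)) : ℕ) : ℝ≥0∞)
              = 20402 * ((r : ℝ≥0∞) * ((nst a + 4 : ℕ) : ℝ≥0∞)) := by push_cast; ring
            _ ≤ _ := by gcongr
        · rw [if_neg hra]
          exact zero_le
    _ = ∫⁻ l, 20402 * ((r : ℝ≥0∞) * g l) ∂m :=
        lintegral_length m (fun l => 20402 * ((r : ℝ≥0∞) * g l)) ((hmeas.const_mul _).const_mul _)
    _ = 20402 * ((r : ℝ≥0∞) * ∫⁻ l, g l ∂m) := by
        rw [lintegral_const_mul _ (hmeas.const_mul _), lintegral_const_mul _ hmeas]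
    _ ≤ 20402 * (4 * C + 10 * (6 + C)) := by
        gcongr

theorem sum_box (m : Measure ℝ) [IsProbabilityMeasure m] (c : V 2) :
    ∑' k, wt m k * one? (k.1 ∈ Bx c 3) ≤ ENNReal.ofReal (7 ^ 2) := by
  rw [sum_wt m fun k => one? (k.1 ∈ Bx c 3)]
  have h : ∑' x : V 2, one? (x ∈ Bx c 3) = 49 := by
    have : ∀ x : V 2, one? (x ∈ Bx c 3) = ind (Bx c 3) x := by
      intro x
      unfold one? ind
      by_cases hx : x ∈ Bx c 3
      · simp [hx]
      · simp [hx]
    simp_rw [this]
    rw [tsum_ind, card_Bx]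
    norm_num
  simp only [h, lintegral_const, measure_univ, mul_one]
  norm_num

/-- **Criterion for a positive critical intensity.** -/
theorem critical_pos (m : Measure ℝ) [IsProbabilityMeasure m] (h0 : m (Set.Iic 0) = 0)
    (C : ℝ≥0∞) (hC : C ≠ ⊤)
    (h : ∀ r : ℝ, 1 ≤ r →
      ENNReal.ofReal r * ∫⁻ l in Set.Ici r, ENNReal.ofReal l ∂m ≤ C) :
    0 < critical m := by
  set D : ℝ≥0∞ := 20402 * (4 * C + 10 * (6 + C)) with hD
  have hDt : D ≠ ⊤ := by
    rw [hD]
    refine ENNReal.mul_ne_top (by norm_num) (ENNReal.add_ne_top.2 ⟨?_, ?_⟩)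
    · exact ENNReal.mul_ne_top (by norm_num) hC
    · exact ENNReal.mul_ne_top (by norm_num) (ENNReal.add_ne_top.2 ⟨by norm_num, hC⟩)
  obtain ⟨v, hv, hmain⟩ := upper_gen (d := 2) (wt m) D.toReal
    (fun c r hr => by
      rw [ENNReal.ofReal_toReal hDt]
      exact sum_bad m h0 C h c r hr)
    (sum_box m)
  have key : ∀ t : ℝ≥0, (t : ℝ) ≤ v → stickLaw t m {ω | Percolates ω} = 0 := by
    intro t ht
    have h1 := hmain _ (markedLaw (ℤ × ℤ) t (animalLaw m))
      (xiM phiE (fun A : Finset (V 2) => A)) (xiM_measurable phiE _)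
      (xiM_indep phiE _ t (animalLaw m)) (fun k => by
        rw [xiM_prob phiE _ t (animalLaw m) k]
        set q := animalLaw m ((fun A : Finset (V 2) => A) ⁻¹' {k.2}) with hq
        have hqt : q ≠ ⊤ := measure_ne_top _ _
        have hq0 : 0 ≤ q.toReal := ENNReal.toReal_nonneg
        calc ENNReal.ofReal (1 - Real.exp (-(t * q.toReal)))
            ≤ ENNReal.ofReal (v * q.toReal) := by
              refine ENNReal.ofReal_le_ofReal ?_
              have := Real.add_one_le_exp (-(t * q.toReal))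
              nlinarith
          _ = ENNReal.ofReal v * q := by
              rw [ENNReal.ofReal_mul hv.le, ENNReal.ofReal_toReal hqt])
    rw [← map_coarse t m] at h1
    have h2 := Measure.preimage_null_of_map_null measurable_coarse.aemeasurable h1
    have h3 : {ω : Sample | ¬ ∀ j, Good (ω.2 j)} ∪
        coarse ⁻¹' {ω | perc (occ (Qs (xiM phiE (fun A : Finset (V 2) => A)) ω))} ⊇
        {ω | Percolates ω} := by
      intro ω hω
      by_cases hg : ∀ j, Good (ω.2 j)
      · exact Or.inr (perc_of_percolates ω hg hω)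
      · exact Or.inl hg
    refine measure_mono_null h3 (measure_union_null ?_ h2)
    exact ae_iff.1 (ae_all_good t m h0)
  refine lt_of_lt_of_le (ENNReal.ofReal_pos.mpr hv) (le_iInf ?_)
  rintro ⟨t, ht0, ht⟩
  by_contra hlt
  push Not at hlt
  have htv : (t : ℝ) ≤ v := by
    have h1 : (t : ℝ≥0∞) ≤ ENNReal.ofReal v := hlt.le
    have h2 := ENNReal.toReal_mono ENNReal.ofReal_ne_top h1
    rwa [ENNReal.toReal_ofReal hv.le, ENNReal.coe_toReal] at h2
  rw [key t htv] at ht
  exact lt_irrefl _ ht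

/-! ### The Pareto law -/

theorem lintegral_rpow (s : ℝ) (hs : 1 < s) (r : ℝ) (hr : 0 < r) :
    ∫⁻ l in Set.Ici r, ENNReal.ofReal (l ^ (-s)) = ENNReal.ofReal (r ^ (1 - s) / (s - 1)) := by
  rw [setLIntegral_congr (Ioi_ae_eq_Ici (a := r)).symm]
  rw [← ofReal_integral_eq_lintegral_ofReal (integrableOn_Ioi_rpow_of_lt (by linarith) hr)]
  · rw [integral_Ioi_rpow_of_lt (by linarith) hr]
    congr 1
    rw [show -s + 1 = 1 - s by ring, show (1 - s) = -(s - 1) by ring, div_neg, neg_div, neg_neg]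
  · refine (ae_restrict_iff' measurableSet_Ioi).2 (Filter.Eventually.of_forall fun l hl => ?_)
    exact Real.rpow_nonneg (hr.trans hl).le _

theorem lintegral_pareto (f : ℝ → ℝ≥0∞) (hf : Measurable f) :
    ∫⁻ l, f l ∂(paretoMeasure 1 2) =
      ∫⁻ l in Set.Ici (1 : ℝ), 2 * ENNReal.ofReal (l ^ (-3 : ℝ)) * f l := by
  have hm : Measurable (paretoPDF 1 2) := (measurable_paretoPDFReal 1 2).ennreal_ofReal
  unfold paretoMeasure
  rw [lintegral_withDensity_eq_lintegral_mul _ hm hf, ← lintegral_indicator measurableSet_Ici]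
  refine lintegral_congr fun l => ?_
  rw [Pi.mul_apply]
  by_cases hl : 1 ≤ l
  · rw [Set.indicator_of_mem (Set.mem_Ici.2 hl), paretoPDF_of_le hl]
    congr 1
    rw [Real.one_rpow, mul_one, ENNReal.ofReal_mul (by norm_num)]
    norm_num
  · rw [Set.indicator_of_notMem (by simpa using hl), paretoPDF_of_lt (not_le.1 hl), zero_mul]

/-- the integrals over the tails -/
theorem setLIntegral_pareto (f : ℝ → ℝ≥0∞) (hf : Measurable f) (r : ℝ) (hr : 1 ≤ r) :
    ∫⁻ l in Set.Ici r, f l ∂(paretoMeasure 1 2) =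
      ∫⁻ l in Set.Ici r, 2 * ENNReal.ofReal (l ^ (-3 : ℝ)) * f l := by
  rw [← lintegral_indicator measurableSet_Ici, lintegral_pareto _ (hf.indicator measurableSet_Ici),
    ← lintegral_indicator measurableSet_Ici, ← lintegral_indicator measurableSet_Ici]
  refine lintegral_congr fun l => ?_
  by_cases hl : r ≤ l
  · rw [Set.indicator_of_mem (Set.mem_Ici.2 (hr.trans hl)), Set.indicator_of_mem (Set.mem_Ici.2 hl),
      Set.indicator_of_mem (Set.mem_Ici.2 hl)]
  · rw [Set.indicator_of_notMem (s := Set.Ici r) (f := fun l => 2 * ENNReal.ofReal (l ^ (-3 : ℝ)) * f l)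
      (by simpa using hl)]
    by_cases hl1 : 1 ≤ l
    · rw [Set.indicator_of_mem (Set.mem_Ici.2 hl1), Set.indicator_of_notMem (by simpa using hl),
        mul_zero]
    · rw [Set.indicator_of_notMem (by simpa using hl1)]

theorem pareto_Ici (r : ℝ) (hr : 1 ≤ r) :
    paretoMeasure 1 2 (Set.Ici r) = ENNReal.ofReal (1 / r ^ 2) := by
  have hr0 : 0 < r := by linarith
  have h1 := setLIntegral_pareto (fun _ => 1) measurable_const r hr
  rw [setLIntegral_one] at h1
  rw [h1]
  simp only [mul_one]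
  rw [lintegral_const_mul' _ _ (by norm_num), lintegral_rpow 3 (by norm_num) r hr0]
  rw [show (2 : ℝ≥0∞) = ENNReal.ofReal 2 by simp, ← ENNReal.ofReal_mul (by norm_num)]
  congr 1
  rw [show (1 : ℝ) - 3 = -2 by norm_num, Real.rpow_neg hr0.le]
  norm_num
  ring

theorem pareto_tail (r : ℝ) (hr : 1 ≤ r) :
    ENNReal.ofReal r * ∫⁻ l in Set.Ici r, ENNReal.ofReal l ∂(paretoMeasure 1 2) = 2 := by
  have hr0 : 0 < r := by linarith
  rw [setLIntegral_pareto (fun l => ENNReal.ofReal l) (by fun_prop) r hr]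
  have h1 : ∫⁻ l in Set.Ici r, 2 * ENNReal.ofReal (l ^ (-3 : ℝ)) * ENNReal.ofReal l =
      ∫⁻ l in Set.Ici r, 2 * ENNReal.ofReal (l ^ (-2 : ℝ)) := by
    refine setLIntegral_congr_fun measurableSet_Ici fun l hl => ?_
    have hl0 : 0 < l := lt_of_lt_of_le hr0 hl
    rw [mul_assoc, ← ENNReal.ofReal_mul (Real.rpow_nonneg hl0.le _)]
    congr 2
    rw [← Real.rpow_add_one hl0.ne']
    norm_num
  rw [h1, lintegral_const_mul' _ _ (by norm_num), lintegral_rpow 2 (by norm_num) r hr0]
  rw [show (2 : ℝ≥0∞) = ENNReal.ofReal 2 by simp, ← ENNReal.ofReal_mul (by norm_num),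
    ← ENNReal.ofReal_mul hr0.le]
  congr 1
  rw [show (1 : ℝ) - 2 = -1 by norm_num, Real.rpow_neg_one]
  field_simp
  norm_num

theorem pareto_sq : ∫⁻ l, ENNReal.ofReal l ^ 2 ∂(paretoMeasure 1 2) = ⊤ := by
  rw [lintegral_pareto _ (by fun_prop)]
  have h1 : ∫⁻ l in Set.Ici (1 : ℝ), 2 * ENNReal.ofReal (l ^ (-3 : ℝ)) * ENNReal.ofReal l ^ 2 =
      ∫⁻ l in Set.Ici (1 : ℝ), 2 * ENNReal.ofReal (l⁻¹) := by
    refine setLIntegral_congr_fun measurableSet_Ici fun l hl => ?_
    have hl0 : (0 : ℝ) < l := lt_of_lt_of_le one_pos hl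
    rw [mul_assoc, ← ENNReal.ofReal_pow hl0.le, ← ENNReal.ofReal_mul (Real.rpow_nonneg hl0.le _)]
    congr 2
    rw [← Real.rpow_natCast, ← Real.rpow_add hl0]
    norm_num
    exact Real.rpow_neg_one l
  rw [h1, lintegral_const_mul' _ _ (by norm_num)]
  have h2 : ∫⁻ l in Set.Ici (1 : ℝ), ENNReal.ofReal (l⁻¹) = ⊤ := by
    by_contra hne
    refine not_integrableOn_Ioi_inv (a := (1 : ℝ)) ?_
    rw [setLIntegral_congr (Ioi_ae_eq_Ici (a := (1 : ℝ))).symm] at hne
    refine ⟨by fun_prop, ?_⟩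
    rw [hasFiniteIntegral_iff_ofReal]
    · exact lt_top_iff_ne_top.2 hne
    · refine (ae_restrict_iff' measurableSet_Ioi).2 (Filter.Eventually.of_forall fun l hl => ?_)
      exact inv_nonneg.2 (one_pos.trans hl).le
  rw [h2]
  exact ENNReal.mul_top (by norm_num)

theorem pareto_Iic : paretoMeasure 1 2 (Set.Iic 0) = 0 := by
  have h1 : Set.Iic (0 : ℝ) ⊆ (Set.Ici 1)ᶜ := by
    intro l hl
    simp only [Set.mem_Iic, Set.mem_compl_iff, Set.mem_Ici] at *
    linarith
  refine measure_mono_null h1 ?_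
  have := isProbabilityMeasure_paretoMeasure (t := 1) (r := 2) one_pos two_pos
  rw [prob_compl_eq_zero_iff measurableSet_Ici, pareto_Ici 1 le_rfl]
  norm_num

end

/-- **Sticks with an infinite second moment and a positive critical intensity.**
(1) For every law `m` of the length `L > 0` such that `r · E [L; L ≥ r]` is bounded for `r ≥ 1`, the
critical intensity is positive.
(2) So the answer to Q2 is no: for the law with `P (L ≥ r) = 1 / r ^ 2` for all `r ≥ 1` one has
`E L ^ 2 = ∞` and `λ_c > 0`. -/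
theorem result :
    (∀ (m : Measure ℝ) [IsProbabilityMeasure m], m (Set.Iic 0) = 0 →
      (∃ C : ℝ≥0∞, C ≠ ⊤ ∧ ∀ r : ℝ, 1 ≤ r →
        ENNReal.ofReal r * ∫⁻ l in Set.Ici r, ENNReal.ofReal l ∂m ≤ C) →
      0 < critical m) ∧
    ∃ (m : Measure ℝ) (_ : IsProbabilityMeasure m), m (Set.Iic 0) = 0 ∧
      (∀ r : ℝ, 1 ≤ r → m (Set.Ici r) = ENNReal.ofReal (1 / r ^ 2)) ∧
      ∫⁻ l, ENNReal.ofReal l ^ 2 ∂m = ⊤ ∧ 0 < critical m := by
  have hm := isProbabilityMeasure_paretoMeasure (t := 1) (r := 2) one_pos two_pos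
  refine ⟨fun m _ h0 ⟨C, hC, h⟩ => critical_pos m h0 C hC h, paretoMeasure 1 2, hm, pareto_Iic,
    pareto_Ici, pareto_sq, ?_⟩
  exact critical_pos _ pareto_Iic 2 (by norm_num) fun r hr => (pareto_tail r hr).le

end Pool.Agent.Results.MP_04d7a1_pr.SticksNoPercolation
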